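import Mathlib

/-!
# A functionally `G_δ` subset of a normal space that is not 1-embedded

The space is the Michael line (the reals with all irrational points isolated) and the subset is the
set of irrational numbers.
-/

set_option autoImplicit false

namespace Pool.Agent.Results.MP_aca66f_gt.MichaelLine

open Set Topology Filter

/-- `A` is functionally open: `A = f⁻¹((0,1])` for a continuous `f : X → [0,1]`. -/
def FunctionallyOpen {X : Type} [TopologicalSpace X] (A : Set X) : Prop :=
  ∃ f : X → ℝ, Continuous f ∧ (∀ x, f x ∈ Icc (0 : ℝ) 1) ∧ A = {x | f x ∈ Ioc (0 : ℝ) 1}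

/-- `A` is functionally closed: `A = f⁻¹(0)` for a continuous `f : X → [0,1]`. -/
def FunctionallyClosed {X : Type} [TopologicalSpace X] (A : Set X) : Prop :=
  ∃ f : X → ℝ, Continuous f ∧ (∀ x, f x ∈ Icc (0 : ℝ) 1) ∧ A = {x | f x = 0}

/-- `A` is functionally `G_δ`: a countable intersection of functionally open sets. -/
def FunctionallyGdelta {X : Type} [TopologicalSpace X] (A : Set X) : Prop :=
  ∃ U : ℕ → Set X, (∀ n, FunctionallyOpen (U n)) ∧ A = ⋂ n, U n

/-- `A` is functionally `F_σ`: a countable union of functionally closed sets. -/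
def FunctionallyFsigma {X : Type} [TopologicalSpace X] (A : Set X) : Prop :=
  ∃ F : ℕ → Set X, (∀ n, FunctionallyClosed (F n)) ∧ A = ⋃ n, F n

/-- The subspace `E` of `X` is 1-embedded: every functionally `F_σ` (functionally `G_δ`) subset of
`E` is the trace on `E` of a functionally `F_σ` (functionally `G_δ`) subset of `X`. -/
def OneEmbedded {X : Type} [TopologicalSpace X] (E : Set X) : Prop :=
  (∀ A : Set E, FunctionallyFsigma A → ∃ B : Set X, FunctionallyFsigma B ∧ A = (↑) ⁻¹' B) ∧
  (∀ A : Set E, FunctionallyGdelta A → ∃ B : Set X, FunctionallyGdelta B ∧ A = (↑) ⁻¹' B)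

/-- The Michael line. -/
def ML : Type := ℝ

/-- identity map to the reals -/
def toR : ML → ℝ := id

/-- A set is open in the Michael line iff it is a Euclidean neighbourhood of each of its rational
points. -/
instance : TopologicalSpace ML where
  IsOpen U := ∀ q : ℚ, (q : ℝ) ∈ toR '' U → toR '' U ∈ 𝓝 (q : ℝ)
  isOpen_univ := by
    intro q _
    have : toR '' univ = univ := image_univ_of_surjective (fun x => ⟨x, rfl⟩)
    rw [this]
    exact univ_mem
  isOpen_inter := by
    intro U V hU hV q hq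
    have h : toR '' (U ∩ V) = toR '' U ∩ toR '' V := image_inter (fun _ _ h => h)
    rw [h] at hq ⊢
    exact inter_mem (hU q hq.1) (hV q hq.2)
  isOpen_sUnion := by
    rintro S hS q ⟨x, ⟨U, hU, hx⟩, hxq⟩
    exact mem_of_superset (hS U hU q ⟨x, hx, hxq⟩) (image_mono (subset_sUnion_of_mem hU))

theorem isOpen_ML {U : Set ML} : IsOpen U ↔ ∀ q : ℚ, (q : ℝ) ∈ (U : Set ℝ) → (U : Set ℝ) ∈ 𝓝 (q : ℝ) := by
  have h : toR '' U = (U : Set ℝ) := image_id _
  constructor
  · intro hU q hq
    have := hU q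
    rw [h] at this
    exact this hq
  · intro hU q hq
    rw [h] at hq ⊢
    exact hU q hq

theorem continuous_toR : Continuous toR := by
  refine ⟨fun V hV => ?_⟩
  rw [isOpen_ML]
  intro q hq
  exact hV.mem_nhds hq

/-- a function continuous on the Michael line is continuous at the rational points -/
theorem continuousAt_rat {f : ML → ℝ} (hf : Continuous f) (q : ℚ) :
    ContinuousAt (fun x : ℝ => f x) (q : ℝ) := by
  intro V hV
  obtain ⟨W, hWV, hW, hq⟩ := mem_nhds_iff.1 hV
  have h1 : IsOpen (f ⁻¹' W) := hW.preimage hf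
  rw [isOpen_ML] at h1
  exact mem_of_superset (h1 q hq) (preimage_mono hWV)

instance : T1Space ML := by
  refine ⟨fun x => ?_⟩
  have : ({x} : Set ML) = toR ⁻¹' {toR x} := Set.ext fun y => Iff.rfl
  rw [this]
  exact isClosed_singleton.preimage continuous_toR

instance : NormalSpace ML := by
  refine ⟨fun F G hF hG hFG => ?_⟩
  have key : ∀ (H K : Set ML), IsClosed K → Disjoint H K → ∀ q : ℚ, ∃ ε : ℝ, 0 < ε ∧
      (((q : ℝ) ∈ (H : Set ℝ)) → ∀ x : ℝ, |x - q| < ε → x ∉ (K : Set ℝ)) := by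
    intro H K hK hHK q
    by_cases hq : (q : ℝ) ∈ (H : Set ℝ)
    · have h1 : (Kᶜ : Set ℝ) ∈ 𝓝 (q : ℝ) :=
        (isOpen_ML.1 hK.isOpen_compl) q (Set.disjoint_left.1 hHK hq)
      obtain ⟨ε, hε, hb⟩ := Metric.mem_nhds_iff.1 h1
      refine ⟨ε, hε, fun _ x hx => ?_⟩
      exact hb (by rw [Metric.mem_ball, Real.dist_eq]; exact hx)
    · exact ⟨1, one_pos, fun h => absurd h hq⟩
  choose ε hε hεF using key F G hG hFG
  choose δ hδ hδG using key G F hF hFG.symm
  let U : Set ℝ := {x : ℝ | x ∈ (F : Set ℝ) ∨ ∃ q : ℚ, (q : ℝ) ∈ (F : Set ℝ) ∧ |x - q| < ε q / 2}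
  let V : Set ℝ := {x : ℝ | x ∈ (G : Set ℝ) ∨ ∃ q : ℚ, (q : ℝ) ∈ (G : Set ℝ) ∧ |x - q| < δ q / 2}
  have hopen : ∀ (H : Set ℝ) (η : ℚ → ℝ), (∀ q, 0 < η q) →
      IsOpen (X := ML) {x : ℝ | x ∈ H ∨ ∃ q : ℚ, (q : ℝ) ∈ H ∧ |x - q| < η q / 2} := by
    intro H η hη
    rw [isOpen_ML]
    rintro q (hq | ⟨r, hr, hqr⟩)
    · refine mem_of_superset (Metric.ball_mem_nhds (q : ℝ) (half_pos (hη q))) ?_
      intro x hx
      rw [Metric.mem_ball, Real.dist_eq] at hx
      exact Or.inr ⟨q, hq, hx⟩
    · have h2 : IsOpen {x : ℝ | |x - r| < η r / 2} :=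
        isOpen_lt (by fun_prop) continuous_const
      refine mem_of_superset (h2.mem_nhds hqr) ?_
      intro x hx
      exact Or.inr ⟨r, hr, hx⟩
  refine ⟨U, V, hopen _ _ hε, hopen _ _ hδ, fun x hx => Or.inl hx, fun x hx => Or.inl hx, ?_⟩
  refine Set.disjoint_left.2 ?_
  rintro x (hx | ⟨q, hq, hxq⟩) (hx' | ⟨r, hr, hxr⟩)
  · exact Set.disjoint_left.1 hFG hx hx'
  · exact hδG r hr x (by linarith [hδ r]) hx
  · exact hεF q hq x (by linarith [hε q]) hx'
  · have h1 : ε q ≤ |(r : ℝ) - q| := by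
      by_contra h
      exact hεF q hq r (not_le.1 h) hr
    have h2 : δ r ≤ |(q : ℝ) - r| := by
      by_contra h
      exact hδG r hr q (not_le.1 h) hq
    have h3 : |(r : ℝ) - q| ≤ |x - q| + |x - r| := by
      have : (r : ℝ) - q = (x - q) - (x - r) := by ring
      rw [this]
      exact abs_sub _ _
    rw [abs_sub_comm] at h2
    linarith

/-! ### A linear functional and non-meagre sets -/

theorem exists_functional : ∃ g : ℝ →ₗ[ℚ] ℚ, g 1 = 1 := by
  obtain ⟨g, hg⟩ := LinearMap.exists_leftInverse_of_injective (Algebra.linearMap ℚ ℝ)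
    (LinearMap.ker_eq_bot.2 (algebraMap ℚ ℝ).injective)
  refine ⟨g, ?_⟩
  have := LinearMap.congr_fun hg 1
  simpa using this

variable (g : ℝ →ₗ[ℚ] ℚ) (hg : g 1 = 1)

include hg in
theorem g_rat (q : ℚ) : g (q : ℝ) = q := by
  have : (q : ℝ) = q • (1 : ℝ) := by
    rw [Rat.smul_def, mul_one]
  rw [this, map_smul, hg, smul_eq_mul, mul_one]

include hg in
theorem not_meagre_all (J : Set ℝ) (hJ : IsOpen J) (hne : J.Nonempty) :
    ¬ IsMeagre ({x : ℝ | g x = 1} ∩ J) := by
  intro hm
  -- `N₁` is meagre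
  have h1 : IsMeagre {x : ℝ | g x = 1} := by
    have h2 : {x : ℝ | g x = 1} ⊆ (⋃ r : {r : ℚ // r ≠ 0},
        (fun x : ℝ => 1 + (r.1 : ℝ) * (x - 1)) ⁻¹' ({x : ℝ | g x = 1} ∩ J)) ∪ {1} := by
      intro x hx
      by_cases hx1 : x = 1
      · exact Or.inr hx1
      · left
        have h3 : IsOpen ((fun t : ℝ => 1 + t * (x - 1)) ⁻¹' J ∩ {0}ᶜ) := by
          refine (hJ.preimage (by fun_prop)).inter isOpen_compl_singleton
        have h4 : ((fun t : ℝ => 1 + t * (x - 1)) ⁻¹' J ∩ {0}ᶜ).Nonempty := by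
          have hx2 : x - 1 ≠ 0 := sub_ne_zero.2 hx1
          obtain ⟨y, hy, hy1⟩ : ∃ y ∈ J, y ≠ 1 := by
            by_contra h
            push Not at h
            have h5 : J ⊆ {1} := fun y hy => h y hy
            have h6 : J = {1} := (subset_singleton_iff_eq.1 h5).resolve_left hne.ne_empty
            rw [h6] at hJ
            exact not_isOpen_singleton (1 : ℝ) hJ
          refine ⟨(y - 1) / (x - 1), ?_, ?_⟩
          · simp only [mem_preimage]
            rw [div_mul_cancel₀ _ hx2]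
            simpa using hy
          · rw [mem_compl_iff, mem_singleton_iff]
            exact div_ne_zero (sub_ne_zero.2 hy1) hx2
        obtain ⟨r, ht⟩ := (Rat.denseRange_cast (𝕜 := ℝ)).exists_mem_open h3 h4
        refine mem_iUnion.2 ⟨⟨r, ?_⟩, ?_, ht.1⟩
        · rintro rfl
          exact ht.2 (by simp)
        · have e : 1 + (r : ℝ) * (x - 1) = r • x + ((1 - r : ℚ) : ℝ) := by
            rw [Rat.smul_def]
            push_cast
            ring
          simp only [mem_ofPred_eq]
          rw [e, map_add, map_smul, g_rat g hg, hx, smul_eq_mul]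
          ring
    refine IsMeagre.mono h2 (IsMeagre.union (isMeagre_iUnion fun r => ?_) ?_)
    · have hr : ((r.1 : ℚ) : ℝ) ≠ 0 := by exact_mod_cast r.2
      let e : ℝ ≃ₜ ℝ := ((Homeomorph.addRight (-1 : ℝ)).trans (Homeomorph.mulLeft₀ _ hr)).trans
        (Homeomorph.addLeft 1)
      have he : (fun x : ℝ => 1 + (r.1 : ℝ) * (x - 1)) = e := by
        funext x
        simp [e, sub_eq_add_neg]
      rw [he]
      exact hm.preimage_of_isOpenMap e.continuous e.isOpenMap
    · refine IsNowhereDense.isMeagre ?_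
      rw [isClosed_singleton.isNowhereDense_iff]
      exact interior_singleton 1
  -- all level sets are meagre
  have h2 : ∀ c : ℚ, IsMeagre {x : ℝ | g x = c} := by
    intro c
    have h3 : {x : ℝ | g x = c} = (fun x : ℝ => x + ((1 - c : ℚ) : ℝ)) ⁻¹' {x : ℝ | g x = 1} := by
      ext x
      simp only [mem_ofPred_eq, mem_preimage, map_add, g_rat g hg]
      constructor <;> intro h <;> linarith
    rw [h3]
    exact h1.preimage_of_isOpenMap (Homeomorph.addRight _).continuous
      (Homeomorph.addRight _).isOpenMap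
  have h3 : IsMeagre (univ : Set ℝ) := by
    have : (univ : Set ℝ) = ⋃ c : ℚ, {x : ℝ | g x = c} := by
      ext x
      simp
    rw [this]
    exact isMeagre_iUnion h2
  exact not_isMeagre_of_isOpen isOpen_univ univ_nonempty h3

include hg in
theorem not_meagre_ker : ¬ IsMeagre ({x : ℝ | g x = 0} \ {0}) := by
  intro h
  have h0 : IsMeagre ({0} : Set ℝ) := by
    refine IsNowhereDense.isMeagre ?_
    rw [isClosed_singleton.isNowhereDense_iff]
    exact interior_singleton 0
  have h1 : IsMeagre {x : ℝ | g x = 0} := by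
    refine (h.union h0).mono ?_
    intro x hx
    by_cases hx0 : x = 0
    · exact Or.inr hx0
    · exact Or.inl ⟨hx, hx0⟩
  have h3 : {x : ℝ | g x = 1} = (fun x : ℝ => x + (-1)) ⁻¹' {x : ℝ | g x = 0} := by
    ext x
    simp only [mem_ofPred_eq, mem_preimage, map_add, map_neg, hg]
    constructor <;> intro h <;> linarith
  refine not_meagre_all g hg univ isOpen_univ univ_nonempty ?_
  rw [inter_univ, h3]
  exact h1.preimage_of_isOpenMap (Homeomorph.addRight _).continuous
    (Homeomorph.addRight _).isOpenMap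

/-! ### The irrational numbers -/

/-- the set of irrational points of the Michael line -/
def Irr : Set ML := {x : ML | Irrational (toR x)}

theorem isOpen_of_irr {U : Set ML} (hU : U ⊆ Irr) : IsOpen U := by
  rw [isOpen_ML]
  intro q hq
  exact absurd (hU hq) (Rat.not_irrational q)

instance : DiscreteTopology Irr := by
  rw [discreteTopology_subtype_iff']
  intro x hx
  refine ⟨{x}, isOpen_of_irr (singleton_subset_iff.2 hx), ?_⟩
  exact inter_eq_left.2 (singleton_subset_iff.2 hx)

theorem irr_gdelta : FunctionallyGdelta Irr := by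
  obtain ⟨q, hq⟩ := exists_surjective_nat ℚ
  refine ⟨fun n => {x : ML | min 1 |toR x - q n| ∈ Ioc (0 : ℝ) 1}, fun n => ?_, ?_⟩
  · refine ⟨fun x => min 1 |toR x - q n|, ?_, fun x => ⟨?_, min_le_left _ _⟩, rfl⟩
    · have := continuous_toR
      fun_prop
    · exact le_min zero_le_one (abs_nonneg _)
  · ext x
    simp only [mem_iInter, mem_ofPred_eq, mem_Ioc, min_le_left, and_true, lt_min_iff, zero_lt_one,
      true_and, abs_pos, sub_ne_zero]
    constructor
    · intro hx n h
      exact hx ⟨q n, h.symm⟩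
    · rintro h ⟨r, hr⟩
      obtain ⟨n, rfl⟩ := hq r
      exact h n hr.symm

/-- There are a normal space `X` and a functionally `G_δ` subset `E` of `X` such that `E` is not
1-embedded in `X`. -/
theorem result : ∃ (X : Type) (_ : TopologicalSpace X) (E : Set X),
    T1Space X ∧ NormalSpace X ∧ FunctionallyGdelta E ∧ ¬ OneEmbedded E := by
  classical
  refine ⟨ML, inferInstance, Irr, inferInstance, inferInstance, irr_gdelta, ?_⟩
  rintro ⟨hF, -⟩
  obtain ⟨g, hg⟩ := exists_functional
  -- the kernel of `g`, without `0`, as a set of irrational points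
  have hirr : ∀ x : ℝ, g x = 0 → x ≠ 0 → Irrational x := by
    rintro x hx hx0 ⟨q, rfl⟩
    rw [g_rat g hg] at hx
    rw [hx] at hx0
    exact hx0 (by simp)
  let A : Set Irr := {x | g (toR x.1) = 0}
  obtain ⟨B, ⟨F, hFc, rfl⟩, hAB⟩ := hF A ⟨fun _ => A, fun _ =>
    ⟨Aᶜ.indicator fun _ => 1, continuous_of_discreteTopology, fun x => by
      by_cases h : x ∈ Aᶜ
      · simp [indicator_of_mem h]
      · simp [indicator_of_notMem h], by
      ext x
      by_cases h : x ∈ A
      · simp [h]
      · simp [h]⟩, (iUnion_const A).symm⟩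
  obtain ⟨FR, hFR⟩ : ∃ FR : ℕ → Set ℝ, FR = F := ⟨F, rfl⟩
  -- one of the sets is dense in an interval
  have h1 : {x : ℝ | g x = 0} \ {0} = ⋃ n, (FR n ∩ {x | Irrational x}) := by
    ext x
    constructor
    · rintro ⟨hx, hx0⟩
      have hxi : Irrational x := hirr x hx hx0
      have h2 : (⟨x, hxi⟩ : Irr) ∈ A := hx
      rw [hAB] at h2
      obtain ⟨n, hn⟩ := mem_iUnion.1 h2
      subst hFR
      exact mem_iUnion.2 ⟨n, hn, hxi⟩
    · intro h
      obtain ⟨n, hn, hxi⟩ := mem_iUnion.1 h
      have h2 : (⟨x, hxi⟩ : Irr) ∈ A := by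
        rw [hAB]
        subst hFR
        exact mem_iUnion.2 ⟨n, hn⟩
      refine ⟨h2, ?_⟩
      rintro rfl
      exact hxi ⟨0, by simp⟩
  obtain ⟨n, hn⟩ : ∃ n, ¬ IsNowhereDense (FR n ∩ {x | Irrational x}) := by
    by_contra hcon
    push Not at hcon
    apply not_meagre_ker g hg
    rw [h1]
    exact isMeagre_iUnion fun n => (hcon n).isMeagre
  set J : Set ℝ := interior (closure (FR n ∩ {x | Irrational x})) with hJ
  have hJne : J.Nonempty := by
    rw [Set.nonempty_iff_ne_empty]
    exact hn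
  obtain ⟨f', hf', hf01', hfF'⟩ := hFc n
  obtain ⟨f, hff⟩ : ∃ f : ℝ → ℝ, f = f' := ⟨f', rfl⟩
  have hfc : ∀ q : ℚ, ContinuousAt f (q : ℝ) := by
    intro q
    rw [hff]
    exact continuousAt_rat hf' q
  have hf01 : ∀ x, f x ∈ Icc (0 : ℝ) 1 := by
    intro x
    rw [hff]
    exact hf01' x
  have hfF : FR n = {x : ℝ | f x = 0} := by
    rw [hFR, hff]
    exact hfF'
  -- `f` vanishes at the rational points of `J`
  have h2 : ∀ q : ℚ, (q : ℝ) ∈ J → f (q : ℝ) = 0 := by
    intro q hq
    have hcl := interior_subset hq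
    by_contra hne
    have h3 : {x : ℝ | f x ≠ 0} ∈ 𝓝 (q : ℝ) :=
      (hfc q).eventually_ne hne
    obtain ⟨x, hx, hxF, -⟩ := mem_closure_iff_nhds.1 hcl _ h3
    rw [hfF] at hxF
    exact hx hxF
  -- so `J \ F n` is meagre
  have h3 : IsMeagre (J \ FR n) := by
    have h4 : J \ FR n ⊆ ⋃ k : ℕ, J \ interior {x : ℝ | f x < 1 / ((k : ℝ) + 1)} := by
      rintro x ⟨hxJ, hxF⟩
      have hx0 : f x ≠ 0 := by
        intro h
        apply hxF
        rw [hfF]
        exact h
      have hxpos : 0 < f x := lt_of_le_of_ne (hf01 x).1 hx0.symm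
      obtain ⟨k, hk⟩ := exists_nat_one_div_lt hxpos
      refine mem_iUnion.2 ⟨k, hxJ, fun h => ?_⟩
      have h' : x ∈ {x : ℝ | f x < 1 / ((k : ℝ) + 1)} := interior_subset h
      have h'' : f x < 1 / ((k : ℝ) + 1) := h'
      linarith
    refine IsMeagre.mono h4 (isMeagre_iUnion fun k => IsNowhereDense.isMeagre ?_)
    -- nowhere dense
    rw [IsNowhereDense, ← Set.not_nonempty_iff_eq_empty]
    rintro ⟨x, hx⟩
    have h5 : x ∈ closure J := closure_mono sdiff_subset (interior_subset hx)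
    obtain ⟨y, hy, hyJ⟩ := mem_closure_iff.1 h5 _ isOpen_interior hx
    obtain ⟨q, hq⟩ := (Rat.denseRange_cast (𝕜 := ℝ)).exists_mem_open
      (isOpen_interior.inter isOpen_interior) ⟨y, hy, hyJ⟩
    have h6 : (q : ℝ) ∈ interior {x : ℝ | f x < 1 / ((k : ℝ) + 1)} := by
      rw [mem_interior_iff_mem_nhds]
      have h7 : f (q : ℝ) < 1 / ((k : ℝ) + 1) := by
        rw [h2 q hq.2]
        positivity
      exact (hfc q).eventually_lt continuousAt_const h7
    obtain ⟨z, hz, hz2⟩ := mem_closure_iff.1 (interior_subset hq.1) _ isOpen_interior h6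
    exact hz2.2 hz
  -- contradiction
  refine not_meagre_all g hg J isOpen_interior hJne ?_
  have h4 : {x : ℝ | g x = 1} ∩ J ⊆ (J \ FR n) ∪ {1} := by
    rintro x ⟨hx, hxJ⟩
    by_cases hx1 : x = 1
    · exact Or.inr hx1
    · refine Or.inl ⟨hxJ, fun hxF => ?_⟩
      have hxi : Irrational x := by
        rintro ⟨q, rfl⟩
        have hx' : g (q : ℝ) = 1 := hx
        rw [g_rat g hg] at hx'
        rw [hx'] at hx1
        exact hx1 (by simp)
      have h5 : x ∈ {x : ℝ | g x = 0} \ {0} := by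
        rw [h1]
        exact mem_iUnion.2 ⟨n, hxF, hxi⟩
      have h6 : g x = 0 := h5.1
      have h7 : g x = 1 := hx
      rw [h6] at h7
      exact zero_ne_one h7
  refine IsMeagre.mono h4 (h3.union (IsNowhereDense.isMeagre ?_))
  rw [isClosed_singleton.isNowhereDense_iff]
  exact interior_singleton 1

end Pool.Agent.Results.MP_aca66f_gt.MichaelLine
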